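import Pool.Agent.H50.ODG.Targets
import Pool.Agent.H86.ODG.SME

/-!
# Row FM2: too many symmetries
-/

set_option autoImplicit false

namespace Pool.Agent.H11.ODG

open Pool.Agent.H57.CP Pool.Agent.H39.TO Pool.Agent.H39.OD Pool.Agent.H50.ODG

theorem pf_FM2 (hMIM : T_MIM) (hSWM : T_SWM) (hCJA : T_CJA) (hKSW : T_KSW) (hSYW : T_SYW)
    (_hRFX : T_RFX) : T_FM2 := by
  intro u w α β hL hab
  obtain ⟨g, G, hg, hE, hLor, h0, h1, h2, h3, h4⟩ := hSWM u u w α β hL
  have hmap : mapG g (ModD u u w α β) = ModD u u w β α := by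
    unfold ModD
    rw [hCJA g G _ _ _ _ _ hg hE hLor (H86.ODG.unit_na u α) (H86.ODG.unit_nb hL)
      H86.ODG.unit_m1, h0, h1, h2, h3, h4, hKSW]
  rcases hab with hab | hab
  · subst hab
    exact ⟨g, hSYW _ g hg hmap, h0⟩
  · obtain ⟨g', G', hg', hE', hLor', k0, k1, k2, k3, k4⟩ := hMIM u u w β α
    have hα : Real.pi - β = α := by linarith
    have hβ : Real.pi - α = β := by linarith
    have hL' : 1 < eL u u w β α := by
      rw [H86.ODG.eL_swap]
      exact hL
    have hmap' : mapG g' (ModD u u w β α) = ModD u u w α β := by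
      unfold ModD
      rw [hCJA g' G' _ _ _ _ _ hg' hE' hLor' (H86.ODG.unit_na u β) (H86.ODG.unit_nb hL')
        H86.ODG.unit_m1, k0, k1, k2, k3, k4, hα, hβ]
    refine ⟨g' * g, hSYW _ (g' * g) ?_ ?_, ?_⟩
    · intro x y
      change ch (g' (g x)) (g' (g y)) = ch x y
      rw [hg', hg]
    · rw [H86.ODG.mapG_mul, hmap, hmap']
    · change g' (g o) = x1 u u w α β
      rw [h0, k1, hα, hβ]

end Pool.Agent.H11.ODG
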