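import Pool.Agent.H50.ODG.Targets

/-!
# Row OR3: the order of the product of two reflections with the angle `u * pi`
-/

set_option autoImplicit false

namespace Pool.Agent.H11.ODG

open Pool.Agent.H57.CP Pool.Agent.H39.TO Pool.Agent.H39.OD Pool.Agent.H50.ODG

theorem pf_OR3 (hORR : T_ORR) : T_OR3 := by
  intro x y u hx hy h0 h1 hxy m
  have hnum : 0 < u.num := Rat.num_pos.mpr h0
  have hden : 0 < u.den := u.den_pos
  have hlt : u.num < (u.den : ℤ) := by
    exact Rat.num_lt_denom_iff.mpr h1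
  have h2 : 2 ≤ u.den := by omega
  have hcop : Nat.Coprime u.num.natAbs u.den := u.reduced
  refine hORR x y u.num.natAbs u.den hx hy h2 hcop ?_ m
  rw [hxy]
  congr 1
  unfold cn
  congr 1
  have hcast : ((u.num.natAbs : ℕ) : ℝ) = (u.num : ℝ) := by
    have h3 : ((u.num.natAbs : ℕ) : ℤ) = u.num := Int.natAbs_of_nonneg hnum.le
    have h4 : (((u.num.natAbs : ℕ) : ℤ) : ℝ) = (u.num : ℝ) := congrArg (fun z : ℤ => (z : ℝ)) h3
    rw [← h4]
    rfl
  rw [hcast]
  have hu : (u : ℝ) = (u.num : ℝ) / (u.den : ℝ) := by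
    conv_lhs => rw [← Rat.num_div_den u]
    push_cast
    rfl
  rw [hu]
  ring

end Pool.Agent.H11.ODG
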